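import Pool.Agent.Lib.MP_8a30e7_co.Final

/-!
# MP_8a30e7_co: a complex which is the 1-skeleton of a 72-polytope and of a 74-polytope, but of no
73-polytope
-/

set_option autoImplicit false

namespace Pool.Agent.Results.MP_8a30e7_co.SkeletonGap

/-- `P` is a `d`-polytope in `ℝ^m`: the convex hull of finitely many points (at least one) whose
affine hull has dimension `d`. -/
def IsPolytope (d : ℕ) {m : ℕ} (P : Set (EuclideanSpace ℝ (Fin m))) : Prop :=
  ∃ V : Set (EuclideanSpace ℝ (Fin m)), V.Finite ∧ V.Nonempty ∧ P = convexHull ℝ V ∧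
    Module.finrank ℝ (affineSpan ℝ V).direction = d

/-- `F` is a nonempty face of `P`: the set of all points of `P` at which some linear functional
attains its maximum on `P` (the zero functional gives the face `P`). -/
def IsFace {m : ℕ} (P F : Set (EuclideanSpace ℝ (Fin m))) : Prop :=
  F.Nonempty ∧ ∃ l : EuclideanSpace ℝ (Fin m) →ₗ[ℝ] ℝ, F = {x ∈ P | ∀ y ∈ P, l y ≤ l x}

/-- The `k`-skeleton of `P`: the nonempty faces whose affine hull has dimension at most `k`,
partially ordered by inclusion. -/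
abbrev Skeleton (k : ℕ) {m : ℕ} (P : Set (EuclideanSpace ℝ (Fin m))) : Type :=
  {F : Set (EuclideanSpace ℝ (Fin m)) // IsFace P F ∧
    Module.finrank ℝ (affineSpan ℝ F).direction ≤ k}

/-- The partially ordered set `C` is (isomorphic to) the `k`-skeleton of a `d`-polytope. -/
def IsSkeletonOf (C : Type) [PartialOrder C] (k d : ℕ) : Prop :=
  ∃ (m : ℕ) (P : Set (EuclideanSpace ℝ (Fin m))), IsPolytope d P ∧
    Nonempty (C ≃o Skeleton k P)

section Aux

open Pool.Agent.MP8a30e7

variable {m : ℕ}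

theorem isFace_iff (P F : Set (EuclideanSpace ℝ (Fin m))) :
    IsFace P F ↔ F.Nonempty ∧ IsExposed ℝ P F := by
  constructor
  · rintro ⟨h, l, hl⟩
    exact ⟨h, fun _ => ⟨LinearMap.toContinuousLinearMap l, hl⟩⟩
  · rintro ⟨h, h'⟩
    obtain ⟨l, hl⟩ := h' h
    exact ⟨h, l.toLinearMap, hl⟩

/-- the skeleton of the library and ours -/
def toFaces (P : Set (EuclideanSpace ℝ (Fin m))) : Skeleton 1 P ≃o Faces P where
  toFun F := ⟨F.1, F.2.1.1, ((isFace_iff P F.1).mp F.2.1).2, by
    have := F.2.2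
    rwa [direction_affineSpan] at this⟩
  invFun F := ⟨F.1, (isFace_iff P F.1).mpr ⟨F.2.1, F.2.2.1⟩, by
    rw [direction_affineSpan]
    exact F.2.2.2⟩
  left_inv _ := rfl
  right_inv _ := rfl
  map_rel_iff' := Iff.rfl

theorem isPolytope_of {d : ℕ} (V : Finset (EuclideanSpace ℝ (Fin d)))
    (hV : affineSpan ℝ (V : Set (EuclideanSpace ℝ (Fin d))) = ⊤) :
    IsPolytope d (convexHull ℝ (V : Set (EuclideanSpace ℝ (Fin d)))) := by
  refine ⟨V, V.finite_toSet, ?_, rfl, ?_⟩
  · rw [← affineSpan_nonempty (k := ℝ), hV]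
    exact ⟨0, trivial⟩
  · rw [hV, AffineSubspace.direction_top, finrank_top, finrank_euclideanSpace, Fintype.card_fin]

/-- Every `d`-polytope is affinely isomorphic to a full-dimensional polytope in `ℝ^d`, with the
same skeleton. -/
theorem exists_full {d : ℕ} (P : Set (EuclideanSpace ℝ (Fin m))) (hP : IsPolytope d P) :
    ∃ V : Finset (EuclideanSpace ℝ (Fin d)),
      affineSpan ℝ (V : Set (EuclideanSpace ℝ (Fin d))) = ⊤ ∧
      ∀ k, Nonempty (Skeleton k P ≃o
        Skeleton k (convexHull ℝ (V : Set (EuclideanSpace ℝ (Fin d))))) := by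
  classical
  obtain ⟨S, hfin, ⟨p0, hp0⟩, rfl, hdim⟩ := hP
  set W : Submodule ℝ (EuclideanSpace ℝ (Fin m)) := (affineSpan ℝ S).direction with hW
  have e : W ≃ₗ[ℝ] EuclideanSpace ℝ (Fin d) :=
    LinearEquiv.ofFinrankEq _ _ (by rw [hdim, finrank_euclideanSpace, Fintype.card_fin])
  obtain ⟨π, hπ⟩ := Submodule.exists_isCompl W
  set pr : EuclideanSpace ℝ (Fin m) →ₗ[ℝ] W := W.projectionOnto π hπ with hpr
  have hprW : ∀ w : W, pr w = w := fun w => Submodule.projectionOnto_apply_left hπ w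
  set L : EuclideanSpace ℝ (Fin m) →ₗ[ℝ] EuclideanSpace ℝ (Fin d) := e.toLinearMap ∘ₗ pr with hL
  set M : EuclideanSpace ℝ (Fin d) →ₗ[ℝ] EuclideanSpace ℝ (Fin m) :=
    W.subtype ∘ₗ e.symm.toLinearMap with hM
  have hML : ∀ w ∈ W, M (L w) = w := by
    intro w hw
    have h1 : pr w = ⟨w, hw⟩ := hprW ⟨w, hw⟩
    show ((e.symm (e (pr w)) : W) : EuclideanSpace ℝ (Fin m)) = w
    rw [e.symm_apply_apply, h1]
  have hLM : ∀ z, L (M z) = z := by
    intro z
    show e (pr ((e.symm z : W) : EuclideanSpace ℝ (Fin m))) = z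
    rw [hprW, e.apply_symm_apply]
  have hMW : ∀ z, M z ∈ W := fun z => (e.symm z).2
  let A : EuclideanSpace ℝ (Fin m) →ᵃ[ℝ] EuclideanSpace ℝ (Fin d) :=
    { toFun := fun x => L x - L p0
      linear := L
      map_vadd' := fun x v => by
        simp only [vadd_eq_add, map_add]
        abel }
  have hA : ∀ x, A x = L x - L p0 := fun _ => rfl
  have hAl : A.linear = L := rfl
  have hPW : ∀ x ∈ convexHull ℝ S, x - p0 ∈ W := by
    intro x hx
    have h1 := AffineSubspace.vsub_mem_direction (convexHull_subset_affineSpan S hx)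
      (subset_affineSpan ℝ S hp0)
    exact h1
  have hMA : ∀ x ∈ convexHull ℝ S, M (A x) = x - p0 := by
    intro x hx
    rw [hA, ← map_sub, hML _ (hPW x hx)]
  have hinj : ∀ x ∈ convexHull ℝ S, ∀ y ∈ convexHull ℝ S, A x = A y → x = y := by
    intro x hx y hy h
    have h1 := hMA x hx
    rw [h, hMA y hy] at h1
    exact (sub_left_inj.mp h1).symm
  have hco : ((hfin.toFinset.image A : Finset (EuclideanSpace ℝ (Fin d))) :
      Set (EuclideanSpace ℝ (Fin d))) = A '' S := by
    rw [Finset.coe_image, hfin.coe_toFinset]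
  have hfr : ∀ N : Submodule ℝ (EuclideanSpace ℝ (Fin m)), N ≤ W →
      Module.finrank ℝ (N.map L) = Module.finrank ℝ N := by
    intro N hN
    apply le_antisymm (Submodule.finrank_map_le L N)
    have h1 : (N.map L).map M = N := by
      ext x
      constructor
      · rintro ⟨z, ⟨y, hy, rfl⟩, rfl⟩
        rw [hML y (hN hy)]
        exact hy
      · intro hx
        exact ⟨L x, ⟨x, hx, rfl⟩, hML x (hN hx)⟩
    calc Module.finrank ℝ N = Module.finrank ℝ ((N.map L).map M) := by rw [h1]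
      _ ≤ _ := Submodule.finrank_map_le M _
  have hdir : ∀ F : Set (EuclideanSpace ℝ (Fin m)), F ⊆ convexHull ℝ S →
      Module.finrank ℝ (affineSpan ℝ (A '' F)).direction
        = Module.finrank ℝ (affineSpan ℝ F).direction := by
    intro F hF
    rw [← AffineSubspace.map_span, AffineSubspace.map_direction, hAl]
    apply hfr
    exact AffineSubspace.direction_le (affineSpan_le.mpr
      (hF.trans (convexHull_subset_affineSpan S)))
  refine ⟨hfin.toFinset.image A, ?_, fun k => ?_⟩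
  · rw [hco, ← AffineSubspace.direction_eq_top_iff_of_nonempty
      (by rw [affineSpan_nonempty]; exact ⟨_, p0, hp0, rfl⟩),
      ← AffineSubspace.map_span, AffineSubspace.map_direction, hAl, eq_top_iff]
    intro z _
    exact ⟨M z, hMW z, hLM z⟩
  · rw [hco, ← A.image_convexHull]
    refine ⟨⟨⟨fun F => ⟨A '' F.1, ⟨?_, ?_⟩, ?_⟩,
      fun G => ⟨{x ∈ convexHull ℝ S | A x ∈ G.1}, ⟨?_, ?_⟩, ?_⟩, ?_, ?_⟩, ?_⟩⟩
    · exact F.2.1.1.image _
    · obtain ⟨l, hl⟩ := F.2.1.2
      refine ⟨l ∘ₗ M, ?_⟩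
      have key : ∀ x ∈ convexHull ℝ S, (l ∘ₗ M) (A x) = l x - l p0 := by
        intro x hx
        rw [LinearMap.comp_apply, hMA x hx, map_sub]
      ext z
      constructor
      · rintro ⟨x, hx, rfl⟩
        rw [hl] at hx
        refine ⟨⟨x, hx.1, rfl⟩, ?_⟩
        rintro _ ⟨y, hy, rfl⟩
        rw [key y hy, key x hx.1]
        exact sub_le_sub_right (hx.2 y hy) _
      · rintro ⟨⟨x, hx, rfl⟩, h⟩
        refine ⟨x, ?_, rfl⟩
        rw [hl]
        refine ⟨hx, fun y hy => ?_⟩
        have h1 := h (A y) ⟨y, hy, rfl⟩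
        rw [key y hy, key x hx] at h1
        exact (sub_le_sub_iff_right _).mp h1
    · rw [hdir]
      · exact F.2.2
      · obtain ⟨l, hl⟩ := F.2.1.2
        rw [hl]
        exact fun x hx => hx.1
    · obtain ⟨z, hz⟩ := G.2.1.1
      obtain ⟨l, hl⟩ := G.2.1.2
      have hz' := hz
      rw [hl] at hz'
      obtain ⟨⟨x, hx, rfl⟩, -⟩ := hz'
      exact ⟨x, hx, hz⟩
    · obtain ⟨l, hl⟩ := G.2.1.2
      refine ⟨l ∘ₗ L, ?_⟩
      have key : ∀ x, (l ∘ₗ L) x = l (A x) + l (L p0) := by
        intro x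
        rw [LinearMap.comp_apply, hA, map_sub]
        ring
      ext x
      constructor
      · rintro ⟨hx, h⟩
        rw [hl] at h
        refine ⟨hx, fun y hy => ?_⟩
        rw [key, key]
        exact add_le_add_left (h.2 _ ⟨y, hy, rfl⟩) _
      · rintro ⟨hx, h⟩
        refine ⟨hx, ?_⟩
        rw [hl]
        refine ⟨⟨x, hx, rfl⟩, ?_⟩
        rintro _ ⟨y, hy, rfl⟩
        have h1 := h y hy
        rw [key, key] at h1
        linarith
    · rw [← hdir _ (fun x hx => hx.1)]
      have h1 : A '' {x ∈ convexHull ℝ S | A x ∈ G.1} = G.1 := by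
        obtain ⟨l, hl⟩ := G.2.1.2
        ext z
        constructor
        · rintro ⟨x, hx, rfl⟩
          exact hx.2
        · intro hz
          have hz' := hz
          rw [hl] at hz'
          obtain ⟨⟨x, hx, rfl⟩, -⟩ := hz'
          exact ⟨x, ⟨hx, hz⟩, rfl⟩
      rw [h1]
      exact G.2.2
    · intro F
      obtain ⟨l, hl⟩ := F.2.1.2
      apply Subtype.ext
      ext x
      constructor
      · rintro ⟨hx, y, hy, h⟩
        have hy' := hy
        rw [hl] at hy'
        rw [← hinj y hy'.1 x hx h]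
        exact hy
      · intro hx
        have hx' := hx
        rw [hl] at hx'
        exact ⟨hx'.1, x, hx, rfl⟩
    · intro G
      obtain ⟨l, hl⟩ := G.2.1.2
      apply Subtype.ext
      ext z
      constructor
      · rintro ⟨x, hx, rfl⟩
        exact hx.2
      · intro hz
        have hz' := hz
        rw [hl] at hz'
        obtain ⟨⟨x, hx, rfl⟩, -⟩ := hz'
        exact ⟨x, ⟨hx, hz⟩, rfl⟩
    · intro F G
      constructor
      · intro h x hx
        obtain ⟨l, hl⟩ := F.2.1.2
        obtain ⟨l', hl'⟩ := G.2.1.2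
        obtain ⟨y, hy, h1⟩ := h ⟨x, hx, rfl⟩
        have hx' := hx
        have hy' := hy
        rw [hl] at hx'
        rw [hl'] at hy'
        rw [← hinj y hy'.1 x hx'.1 h1]
        exact hy
      · intro h
        exact Set.image_mono h

end Aux

/-- There is a complex (a graph) which is the 1-skeleton of a 72-polytope and the 1-skeleton of a
74-polytope, but the 1-skeleton of no 73-polytope. -/
theorem result : ∃ (C : Type) (_ : PartialOrder C),
    IsSkeletonOf C 1 72 ∧ IsSkeletonOf C 1 74 ∧ ¬ IsSkeletonOf C 1 73 := by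
  obtain ⟨P, Q, hP, hQ, ⟨e⟩, hR⟩ := Pool.Agent.MP8a30e7.main
  refine ⟨Skeleton 1 (convexHull ℝ (P : Set (EuclideanSpace ℝ (Fin 72)))), inferInstance,
    ⟨72, _, isPolytope_of P hP, ⟨OrderIso.refl _⟩⟩,
    ⟨74, _, isPolytope_of Q hQ,
      ⟨(toFaces _).trans (e.trans (toFaces _).symm)⟩⟩, ?_⟩
  rintro ⟨m, R, hR', ⟨f⟩⟩
  obtain ⟨V, hV, hk⟩ := exists_full R hR'
  obtain ⟨g⟩ := hk 1
  exact hR ⟨V, hV, ⟨(toFaces _).symm.trans ((f.trans g).symm.trans (toFaces _))⟩⟩

end Pool.Agent.Results.MP_8a30e7_co.SkeletonGap
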